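import Pool.Agent.helper43.DHB.SpecB

/-!
# d2:bSPG (MP_5823cb_al): sparsity growth (helper59)
-/

set_option autoImplicit false

open Filter Topology MeasureTheory
open scoped commutatorElement

namespace Pool.Agent.helper90.DH

open Pool.Agent.helper64.D2

theorem bSPG_geo (S : ℕ) : ∑ k ∈ Finset.Icc 1 S, ((1 : ℝ) / 2) ^ (k + 4) ≤ 1 / 16 := by
  have h : ∀ S : ℕ, ∑ k ∈ Finset.Icc 1 S, ((1 : ℝ) / 2) ^ (k + 4) = 1 / 16 - (1 / 2) ^ (S + 4) := by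
    intro S
    induction S with
    | zero => norm_num
    | succ n ih =>
      rw [Finset.sum_Icc_succ_top (by omega), ih]
      ring
  rw [h]
  have : (0 : ℝ) ≤ (1 / 2) ^ (S + 4) := by positivity
  linarith

theorem bSPG_zero (q : ℕ) (C : ℕ → ℝ → ℝ) (S : ℕ) (th tol : ℝ) : SPRf q C S 0 th tol := by
  intro p E _ hE _
  have h : E = ∅ := by
    apply Finset.eq_empty_of_forall_notMem
    intro e he
    have := (hE e he).2.1
    omega
  rw [h]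
  simp

theorem bSPG_tau (K : ℝ) (M u a : ℕ) (_hK : 0 ≤ K) (h : 100 * K ≤ 2 ^ M) (ha : u + M ≤ a) :
    K * (1 / 2 ^ a) * 2 ^ u ≤ 1 / 100 := by
  have h1 : (2 : ℝ) ^ u * 2 ^ M ≤ 2 ^ a := by
    rw [← pow_add]
    exact pow_le_pow_right₀ (by norm_num) ha
  have h2 : (0 : ℝ) < 2 ^ a := by positivity
  have h3 : (0 : ℝ) < 2 ^ u := by positivity
  have h4 : K * (1 / 2 ^ a) * 2 ^ u = K * 2 ^ u / 2 ^ a := by ring
  rw [h4, div_le_iff₀ h2]
  have h5 : (2 : ℝ) ^ u * (100 * K) ≤ 2 ^ u * 2 ^ M := mul_le_mul_of_nonneg_left h h3.le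
  linarith

theorem bSPG_NM (a b : ℝ) (C : ℝ → ℝ) (hab : a ≤ b) (h : NM a C) : NM b C :=
  ⟨h.cd, fun x => (h.sl x).trans hab, fun x => (h.ds x).trans hab⟩

theorem bSPG_dg {q L N : ℕ} (w : Fin q × Fin L → Fin N) (i l : ℕ) : dg w i l ≤ N := by
  unfold dg
  split
  · exact (w _).2.le
  · exact Nat.zero_le _

/-- the slopes of the maps of a batch. -/
theorem bSPG_slope (hNMF : bNMF_stmt) (P E W : ℝ → ℝ) (hP : NM (1 / 100) P) (hE : NM (1 / 100) E) (hW : ContDiff ℝ 1 W)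
    (hW' : ∀ x, |deriv W x| ≤ 1 / 100) (x y : ℝ) : |P (E x + W x) - P (E y + W y)| ≤ 2 * |x - y| := by
  have h1 := ((hNMF.2.2.1 P (1 / 100) (by norm_num) hP).2.2.2 (E x + W x) (E y + W y)).2
  have h2 := ((hNMF.2.2.1 E (1 / 100) (by norm_num) hE).2.2.2 x y).2
  have h3 : |W x - W y| ≤ 1 / 100 * |x - y| := by
    have h4 := (convex_univ (𝕜 := ℝ) (E := ℝ)).norm_image_sub_le_of_norm_deriv_le (𝕜 := ℝ) (f := W) (C := 1 / 100) (x := y) (y := x)
      (fun z _ => (hW.differentiable (by norm_num)).differentiableAt) (fun z _ => hW' z) (Set.mem_univ _) (Set.mem_univ _)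
    exact h4
  have h5 : |E x + W x - (E y + W y)| ≤ |E x - E y| + |W x - W y| := by
    have : E x + W x - (E y + W y) = (E x - E y) + (W x - W y) := by ring
    rw [this]
    exact abs_add_le _ _
  have h6 : 0 ≤ |x - y| := abs_nonneg _
  nlinarith

open Classical in
theorem bSPG (hPRB : bPRB_stmt) (hGRD : bGRD_stmt) (hCNT : bCNT_stmt) (hCFG : bCFG_stmt) (hCLN : bCLN_stmt) (hNUM : bNUM_stmt)
    (hSJB : bSJB_stmt) (hNMF : bNMF_stmt) (hWDF : bWDF_stmt) : bSPG_stmt := by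
  intro β hβ w0 th hth
  obtain ⟨Kb, hKb1, hKb⟩ := hCFG β hβ
  obtain ⟨Kw, hKw1, hKw⟩ := hWDF β hβ
  obtain ⟨M, hM⟩ : ∃ M : ℕ, 100 * (Kb + Kw) ≤ (2 : ℝ) ^ M := by
    obtain ⟨M, hM⟩ := pow_unbounded_of_one_lt (100 * (Kb + Kw)) (one_lt_two (α := ℝ))
    exact ⟨M, hM.le⟩
  obtain ⟨ρ1, hρ1⟩ := hNUM w0 th hth
  obtain ⟨ρ2, hρ2⟩ := hSJB w0 (M + 16)
  refine ⟨max ρ1 ρ2, ?_⟩
  intro ρ hρ t P E hPE hSPR
  obtain ⟨hMρ, hs, hMu, hus, hsu, hamp, h1024⟩ := hρ2 ρ (le_trans (le_max_right _ _) hρ) t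
  have hnum := hρ1 ρ (le_trans (le_max_left _ _) hρ) t
  have hampU : ∀ φ < 2 ^ w0, amp w0 (ρ ^ 2) t φ ≤ sj (ρ ^ 2) t + 3 * w0 * 2 ^ w0 := by
    intro φ hφ
    rcases Nat.eq_zero_or_pos t with h0 | h0
    · subst h0
      simp only [amp, sj, if_true]
      omega
    · exact (hamp φ hφ).2.2 h0
  have hρpos : 0 < ρ := by omega
  set u := bu w0 (ρ ^ 2) t with hu
  set S := sj (ρ ^ 2) (t + 1) with hS
  set τ : ℕ → ℝ := fun i => 1 / 2 ^ amp w0 (ρ ^ 2) t (i % 2 ^ w0) with hτdef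
  have hmod : ∀ i : ℕ, i % 2 ^ w0 < 2 ^ w0 := fun i => Nat.mod_lt _ (by positivity)
  have hτK : ∀ K : ℝ, 0 ≤ K → 100 * K ≤ 2 ^ M → ∀ i, K * τ i * 2 ^ u ≤ 1 / 100 := by
    intro K hK0 hKM i
    apply bSPG_tau K M u _ hK0 hKM
    have := (hamp _ (hmod i)).1
    omega
  have hτ0 : ∀ i, 0 < τ i := fun i => by
    rw [hτdef]
    positivity
  have hKbM : 100 * Kb ≤ 2 ^ M := by linarith
  have hKwM : 100 * Kw ≤ 2 ^ M := by linarith
  have hNMP : ∀ i, NM (1 / 100) (ev (P i)) ∧ NM (1 / 100) (ev (E i)) := fun i =>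
    ⟨bSPG_NM _ _ _ (by norm_num) (hNMF.1 (P i) (1 / 1000) (by norm_num) (hPE i).1).1,
     bSPG_NM _ _ _ (by norm_num) (hNMF.1 (E i) (1 / 1000) (by norm_num) (hPE i).2).1⟩
  have hS2u : 2 * u + 2 * (M + 16) ≤ S := by
    have h1 := (hamp 0 (by positivity)).1
    have h2 := (hamp 0 (by positivity)).2.1
    omega
  -- slopes
  have hslope : ∀ w' : Fin (ρ ^ 4) × Fin (2 ^ u) → Fin (2 ^ S), ∀ i < ρ ^ 4, ∀ x y,
      |CMf β u (2 ^ S) τ (fun i => ev (P i)) (fun i => ev (E i)) (dg w') i x -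
        CMf β u (2 ^ S) τ (fun i => ev (P i)) (fun i => ev (E i)) (dg w') i y| ≤ 2 * |x - y| := by
    intro w' i _ x y
    have h1 := hKw u (2 ^ S) (τ i) (dg w' i) (by omega) (by positivity) (hτ0 i).le (fun l => bSPG_dg w' i l)
    exact bSPG_slope hNMF _ _ _ (hNMP i).1 (hNMP i).2 h1.1 (fun z => (h1.2.2.1 z).trans (hτK Kw (by linarith) hKwM i)) x y
  -- one configuration
  have hone : ∀ k : ℕ, 1 ≤ k → k * ρ ^ 3 ≤ S → ∀ z : Cfg (ρ ^ 4) S k, Monotone (cpt z) → PIn (ced z) →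
      th * (ρ ^ 4 : ℕ) * k < (ced z).card →
      bpr {w' : Fin (ρ ^ 4) × Fin (2 ^ u) → Fin (2 ^ S) | ∀ e ∈ ced z,
        |CMf β u (2 ^ S) τ (fun i => ev (P i)) (fun i => ev (E i)) (dg w') e.1 (cpt z e.2.1) - cpt z e.2.2| ≤ 10 / 2 ^ S} ≤
      (1 / 2) ^ (k + 4) / ((2 ^ (S + 1) + 1 : ℝ) ^ k * ((k : ℝ) + 1) ^ (ρ ^ 4 * k)) := by
    intro k hk1 hkS z hmono hPIn hcard
    have hkd : k ≤ S / ρ ^ 3 := (Nat.le_div_iff_mul_le (by positivity)).2 hkS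
    obtain ⟨w, hwU, hclean⟩ : ∃ w ∈ Finset.Icc (u / 2) (u - 6), Cln k (cpt z) w := by
      by_contra h
      push Not at h
      have h1 := hCLN k (cpt z) hmono (Finset.Icc (u / 2) (u - 6))
      rw [Finset.filter_true_of_mem h, Nat.card_Icc] at h1
      omega
    rw [Finset.mem_Icc] at hwU
    have hwu : u ≤ 2 * w + 2 := by omega
    obtain ⟨hb1, hb2⟩ := hnum k w hk1 hkS hwu
    have h10 : (10 : ℝ) / 2 ^ S ≤ 1 / 2 ^ w := by
      have h1 : (2 : ℝ) ^ (w + 4) ≤ 2 ^ S := pow_le_pow_right₀ (by norm_num) (by omega)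
      rw [pow_add] at h1
      rw [div_le_div_iff₀ (by positivity) (by positivity)]
      have h2 : (0 : ℝ) < 2 ^ w := by positivity
      linarith
    have hspr : ∀ k' : ℕ, (k' : ℝ) ≤ (w : ℝ) / (2 * ρ ^ 3) → SPRf (ρ ^ 4) (fun i x => ev (P i) (ev (E i) x)) w k' th 4 := by
      intro k' hk'
      have h1 : (0 : ℝ) < 2 * (ρ : ℝ) ^ 3 := by positivity
      rw [le_div_iff₀ h1] at hk'
      have h2 : 2 * k' * ρ ^ 3 ≤ w := by
        have h3 : ((2 * k' * ρ ^ 3 : ℕ) : ℝ) ≤ (w : ℝ) := by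
          push_cast
          linarith
        exact_mod_cast h3
      have h3 := hSPR w k' (by omega) h2
      intro p E' hp hE' hinj
      exact h3 p E' hp hE' hinj
    have hcfg := hKb (ρ ^ 4) u w (2 ^ S) S k (fun i => ev (P i)) (fun i => ev (E i)) τ th ((w : ℝ) / (2 * ρ ^ 3))
      ((1 : ℝ) / 2 ^ (sj (ρ ^ 2) t + 3 * w0 * 2 ^ w0)) (cpt z) (ced z) hNMP (by positivity) (by
        intro i
        refine ⟨?_, ?_, hτK Kb (by linarith) hKbM i⟩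
        · exact one_div_le_one_div_of_le (by positivity) (pow_le_pow_right₀ (by norm_num) (hampU _ (hmod i)))
        · have h1 := (hamp _ (hmod i)).1
          have h2 : (8 : ℝ) * 2 ^ w = 2 ^ (w + 3) := by
            rw [pow_add]
            ring
          rw [h2]
          exact one_div_le_one_div_of_le (by positivity) (pow_le_pow_right₀ (by norm_num) (by omega)))
      (by omega) (by omega) (by positivity) h10 hb1 hth.le hspr hmono (fun a _ => ((hCNT (ρ ^ 4) S k).2 z).1 a) hclean hPIn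
      ((hCNT (ρ ^ 4) S k).2 z).2 hcard
    refine hcfg.trans ?_
    rw [le_div_iff₀ (by positivity)]
    rw [mul_comm]
    exact hb2
  -- the union bound
  set KS : Finset ℕ := (Finset.Icc 1 S).filter (fun k => k * ρ ^ 3 ≤ S) with hKS
  set Gd : (k : ℕ) → Finset (Cfg (ρ ^ 4) S k) := fun k =>
    Finset.univ.filter (fun z => Monotone (cpt z) ∧ PIn (ced z) ∧ th * (ρ ^ 4 : ℕ) * k < (ced z).card) with hGd
  set evz : (k : ℕ) → Cfg (ρ ^ 4) S k → Set (Fin (ρ ^ 4) × Fin (2 ^ u) → Fin (2 ^ S)) := fun k z =>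
    {w' | ∀ e ∈ ced z, |CMf β u (2 ^ S) τ (fun i => ev (P i)) (fun i => ev (E i)) (dg w') e.1 (cpt z e.2.1) - cpt z e.2.2| ≤ 10 / 2 ^ S} with hevz
  have hcover : {w : Fin (ρ ^ 4) × Fin (2 ^ u) → Fin (2 ^ S) | ¬ ∀ k : ℕ, k * ρ ^ 3 ≤ S →
      SPRf (ρ ^ 4) (CMf β u (2 ^ S) τ (fun i => ev (P i)) (fun i => ev (E i)) (dg w)) S k th 8} ⊆
      ⋃ k ∈ KS, ⋃ z ∈ Gd k, evz k z := by
    intro w' hw'
    have hw : ¬ ∀ k : ℕ, k * ρ ^ 3 ≤ S →
      SPRf (ρ ^ 4) (CMf β u (2 ^ S) τ (fun i => ev (P i)) (fun i => ev (E i)) (dg w')) S k th 8 := hw'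
    push Not at hw
    obtain ⟨k, hkS, hk⟩ := hw
    have hk1 : 1 ≤ k := by
      rcases Nat.eq_zero_or_pos k with h0 | h0
      · subst h0
        exact absurd (bSPG_zero _ _ _ _ _) hk
      · exact h0
    obtain ⟨z, hz1, hz2, hz3, hz4⟩ := hGRD (ρ ^ 4) S k _ th (hslope w') hk
    have hkS' : k ≤ S := le_trans (Nat.le_mul_of_pos_right k (by positivity)) hkS
    simp only [Set.mem_iUnion]
    refine ⟨k, ?_, z, ?_, hz4⟩
    · rw [hKS, Finset.mem_filter, Finset.mem_Icc]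
      exact ⟨⟨hk1, hkS'⟩, hkS⟩
    · rw [hGd]
      simp only [Finset.mem_filter, Finset.mem_univ, true_and]
      exact ⟨hz1, hz2, hz3⟩
  calc bpr {w : Fin (ρ ^ 4) × Fin (2 ^ u) → Fin (2 ^ S) | ¬ ∀ k : ℕ, k * ρ ^ 3 ≤ S →
      SPRf (ρ ^ 4) (CMf β u (2 ^ S) τ (fun i => ev (P i)) (fun i => ev (E i)) (dg w)) S k th 8}
      ≤ bpr (⋃ k ∈ KS, ⋃ z ∈ Gd k, evz k z) := hPRB.1 _ _ _ hcover
    _ ≤ ∑ k ∈ KS, bpr (⋃ z ∈ Gd k, evz k z) := hPRB.2.2.2.1 _ ℕ KS _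
    _ ≤ ∑ k ∈ KS, ((1 : ℝ) / 2) ^ (k + 4) := by
        apply Finset.sum_le_sum
        intro k hk
        rw [hKS, Finset.mem_filter, Finset.mem_Icc] at hk
        have hY : (0 : ℝ) < (2 ^ (S + 1) + 1 : ℝ) ^ k * ((k : ℝ) + 1) ^ (ρ ^ 4 * k) := by positivity
        set Y : ℝ := (2 ^ (S + 1) + 1 : ℝ) ^ k * ((k : ℝ) + 1) ^ (ρ ^ 4 * k) with hYdef
        calc bpr (⋃ z ∈ Gd k, evz k z) ≤ ∑ z ∈ Gd k, bpr (evz k z) := hPRB.2.2.2.1 _ _ (Gd k) _
          _ ≤ ∑ _z ∈ Gd k, (1 / 2) ^ (k + 4) / Y := by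
              apply Finset.sum_le_sum
              intro z hz
              rw [hGd] at hz
              simp only [Finset.mem_filter, Finset.mem_univ, true_and] at hz
              exact hone k hk.1.1 hk.2 z hz.1 hz.2.1 hz.2.2
          _ = (Gd k).card * ((1 / 2) ^ (k + 4) / Y) := by
              rw [Finset.sum_const, nsmul_eq_mul]
          _ ≤ Y * ((1 / 2) ^ (k + 4) / Y) := by
              apply mul_le_mul_of_nonneg_right _ (by positivity)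
              have h1 : ((Gd k).card : ℝ) ≤ (Fintype.card (Cfg (ρ ^ 4) S k) : ℝ) := by
                exact_mod_cast Finset.card_le_univ (Gd k)
              exact h1.trans (hCNT (ρ ^ 4) S k).1
          _ = (1 / 2) ^ (k + 4) := by
              field_simp
    _ ≤ ∑ k ∈ Finset.Icc 1 S, ((1 : ℝ) / 2) ^ (k + 4) := by
        apply Finset.sum_le_sum_of_subset_of_nonneg (Finset.filter_subset _ _)
        intro k _ _
        positivity
    _ ≤ 1 / 16 := bSPG_geo S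
    _ ≤ 1 / 10 := by norm_num

end Pool.Agent.helper90.DH
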